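import Pool.Agent.H95.Jmp

set_option autoImplicit false

open Pool.Agent.H95.Jmp MeasureTheory

theorem Pool.Agent.Results.MP_ae1cd8_an.Unbounded.result :
    ∃ (Ω : Type) (_ : MeasurableSpace Ω) (ν : Measure Ω) (p : Ω → Ω → ℝ) (ω : Ω → ℝ), Data ν p ω ∧
      ∀ T, Generates ν p ω T → ¬∃ M, ∀ t, 0 ≤ t → ‖T t‖ ≤ M :=
  main
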